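import Pool.Agent.H310R3.Bridge
import Pool.Agent.H310R3.ProbA

/-!
# No injection from the permutations of an infinite set to the natural numbers times the set

In every model of Zermelo set theory (so in every model of ZF): if `a` is infinite, then there is
no injection from the set of all permutations of `a` to the product of the set of natural numbers
and `a`.
-/

namespace Pool.Agent.Results.MP_113a4a_lc.NoInjection

open FirstOrder FirstOrder.Language
open Pool.Agent.Helper672.Plain (LSet Zermelo)
open Pool.Agent.H310Cards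

universe u

theorem result (M : Type u) [LSet.Structure M] [Zermelo M] (a w p s f : M)
    (hw : IsOmega w) (hp : IsProd p w a) (hs : IsSymSet s a) (ha : ¬ IsFinite a) :
    ¬ IsInj f s p := by
  letI := Pool.Agent.Helper672.Plain.toL (M := M)
  letI : Pool.Agent.Helper672.ZFA.IsModel M := Pool.Agent.Helper672.Plain.isModel_toL
  intro hf
  have hW : ∀ z : M, Pool.Agent.Helper672.ZFA.Mem z w ↔
      ∃ n : Pool.Agent.Helper672.ZFA.INat M, Pool.Agent.Helper672.ZFA.code n = z :=
    fun z => Pool.Agent.H310.mem_omega hw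
  have hA : ∀ z : M, Pool.Agent.Helper672.ZFA.Mem z a ↔
      ∃ x : Pool.Agent.Helper672.ZFA.El a, Pool.Agent.Helper672.ZFA.code x = z :=
    fun z => Pool.Agent.H310.mem_El
  have hP := fun z : M => Pool.Agent.H310.mem_prod (z := z) hW hA hp
  have hS := fun z : M => Pool.Agent.H310.mem_sym (z := z) hs
  obtain ⟨i, hi, hi'⟩ := Pool.Agent.H310.exists_fun
    (α := Pool.Agent.H310.IPm M (Pool.Agent.Helper672.ZFA.El a))
    (β := Pool.Agent.Helper672.ZFA.INat M × Pool.Agent.Helper672.ZFA.El a) hf.1
    (fun x => (hS _).2 ⟨x, rfl⟩) fun z hz => (hP z).1 hz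
  refine Pool.Agent.H310.no_inj (i := i) (Pool.Agent.H310.not_finP hA ha) hi
    fun σ τ hστ => ?_
  exact Pool.Agent.Helper672.ZFA.ITy.inj (hf.2 _ _ _ ((hi' σ (i τ)).1 hστ) ((hi' τ (i τ)).1 rfl))

end Pool.Agent.Results.MP_113a4a_lc.NoInjection
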